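import Pool.Agent.Y815.GI.Red

/-!
# The isomorphism problem for 3-DIM is GI-complete

The graph isomorphism problem for arbitrary finite graphs reduces, by a polynomial-time many-one
reduction (a Turing machine in the sense of Mathlib, working on bit strings), to the isomorphism
problem for comparability graphs of partial orders of dimension at most three.

Given a graph `X` on `{0, …, n-1}`, take the incidence relation between the vertices `x` and the
`n²` ordered pairs `(i, j)`, where `x` is incident with `(i, j)` if `x = i`, or if `x = j` and
`i`, `j` are adjacent.  Every incident pair becomes a strand of `6 R + 2` elements with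
`R = n² (n + 1) + 1` gadgets, in which a chosen strand can be moved to the front by three linear
orders; the resulting poset of height two has dimension at most three, and its comparability graph
determines the incidence relation up to isomorphism.
-/

set_option autoImplicit false

namespace Pool.Agent.Results.MP_89b4f4_co.GIComplete

open Pool.Agent.NPC Pool.Agent.NPC.R671 Pool.Agent.W125.Dim Pool.Agent.Y815.GI

/-- **The isomorphism problem for `3`-DIM is GI-complete.**

* There is a polynomial-time computable function `f` on bit strings such that, for *every* bit
  string `x`, the value `f x` codes a pair of adjacency matrices of finite graphs `X'`, `Y'` which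
  are both comparability graphs of partial orders of dimension at most `3`, and `x` is a
  yes-instance of the graph isomorphism problem for arbitrary graphs iff `X'` and `Y'` are
  isomorphic.
* In particular the graph isomorphism problem is polynomial-time many-one reducible to the
  isomorphism problem for `3`-DIM, as languages.
* The converse reduction is the identity on the codes of pairs of graphs in `3`-DIM. -/
theorem result :
    (∃ f : List Bool → List Bool, PolyTime f ∧ ∀ x : List Bool,
      ∃ (N M : ℕ) (X' : SimpleGraph (Fin N)) (Y' : SimpleGraph (Fin M)),
        f x = bits (adjMatrix X', adjMatrix Y') ∧ KDim 3 X' ∧ KDim 3 Y' ∧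
          (x ∈ lang GraphIso ↔ Nonempty (X' ≃g Y'))) ∧
    Reduces (lang GraphIso) (lang ThreeDimIso) ∧
    ∀ (N M : ℕ) (X : SimpleGraph (Fin N)) (Y : SimpleGraph (Fin M)), KDim 3 X → KDim 3 Y →
      (bits (adjMatrix X, adjMatrix Y) ∈ lang GraphIso ↔ Nonempty (X ≃g Y)) ∧
      (bits (adjMatrix X, adjMatrix Y) ∈ lang ThreeDimIso ↔ Nonempty (X ≃g Y)) :=
  ⟨main, reduces, fun _ _ X Y hX hY => ⟨bits_mem X Y, bits_mem_three X Y hX hY⟩⟩

end Pool.Agent.Results.MP_89b4f4_co.GIComplete
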